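import Pool.Agent.Lib.MP_b5021c_nt.E1.H80.Iface
import Pool.Agent.Lib.MP_b5021c_nt.B.H05.Pmf

/-!
# MP_b5021c_nt, row E1R_AMB: the Poisson mean at a real point
-/

namespace Pool.Agent.B5.Nr.H18

open Polynomial Pool.Agent.B5 Pool.Agent.B5.Nr

theorem Am_add (a : ℝ) (p q : RO ℤ) : Am a (p + q) = Am a p + Am a q := by
  unfold Am
  rw [AddMonoidAlgebra.coeff_add]
  apply Finsupp.sum_add_index'
  · intro k
    simp
  · intro k c d
    push_cast
    ring

theorem Am_single (a : ℝ) (n : ℤ) (c : ℤ) :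
    Am a (AddMonoidAlgebra.single n c : RO ℤ) = (c : ℝ) * a ^ n.natAbs := by
  unfold Am
  rw [AddMonoidAlgebra.coeff_single]
  apply Finsupp.sum_single_index
  simp

theorem Am_rsh (a : ℝ) (p : RO ℤ) : Am a (rsh p) = Am a p := by
  induction p using AddMonoidAlgebra.induction_linear with
  | zero => simp
  | add f g hf hg => rw [map_add, Am_add, Am_add, hf, hg]
  | single n c =>
    rw [Pool.Agent.B5.H36.rsh_single, Am_single, Am_single, Int.natAbs_neg]
    rfl

theorem pow_re (z : ℂ) (hz : ‖z‖ = 1) (n : ℤ) : (z ^ n).re = (z ^ n.natAbs).re := by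
  rcases le_total 0 n with h | h
  · conv_lhs => rw [← Int.natAbs_of_nonneg h, zpow_natCast]
  · have h1 : n = -(n.natAbs : ℤ) := by omega
    have h4 : (starRingEnd ℂ) z = z⁻¹ := by
      rw [Complex.inv_def, Complex.normSq_eq_norm_sq, hz]
      simp
    conv_lhs => rw [h1, zpow_neg, zpow_natCast, ← inv_pow, ← h4, ← map_pow, Complex.conj_re]

theorem Am_pmn (a : ℝ) (ha : |a| < 1) (p : RO ℤ) : pmn (a : ℂ) p = Am a p := by
  have hna : ‖(a : ℂ)‖ < 1 := by rw [Complex.norm_real, Real.norm_eq_abs]; exact ha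
  set r : ℂ[X] := ∑ n ∈ p.coeff.support, Polynomial.monomial n.natAbs ((p.coeff n : ℤ) : ℂ) with hr
  have hev : ∀ z : ℂ, (r.eval z).re = ∑ n ∈ p.coeff.support, (p.coeff n : ℝ) * (z ^ n.natAbs).re := by
    intro z
    rw [hr, Polynomial.eval_finsetSum, Complex.re_sum]
    refine Finset.sum_congr rfl fun n _ => ?_
    rw [Polynomial.eval_monomial, ← Complex.ofReal_intCast, Complex.re_ofReal_mul]
  have h1 : pmn (a : ℂ) p = (r.eval (a : ℂ)).re := by
    rw [← Pool.Agent.B5.H05.poisson_re r a hna]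
    unfold pmn
    apply Real.circleAverage_congr_sphere
    intro z hz
    have hz1 : ‖z‖ = 1 := by simpa using hz
    simp only
    congr 1
    rw [hev]
    unfold evL Finsupp.sum
    rw [Complex.re_sum]
    refine Finset.sum_congr rfl fun n _ => ?_
    have h2 : (Coef.emb (p.coeff n) : ℂ) = (((p.coeff n : ℤ) : ℝ) : ℂ) := by
      change (Int.castRingHom ℂ) _ = _
      rw [eq_intCast, Complex.ofReal_intCast]
    beta_reduce
    rw [h2, Complex.re_ofReal_mul, pow_re z hz1]
  rw [h1, hev]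
  unfold Am Finsupp.sum
  refine Finset.sum_congr rfl fun n _ => ?_
  rw [← Complex.ofReal_pow, Complex.ofReal_re]

theorem amb : AmbS := fun a =>
  ⟨Am_add a, Am_rsh a, fun ha p => Am_pmn a ha p⟩

end Pool.Agent.B5.Nr.H18
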